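import Mathlib
import Pool.Agent.Helper43.UN.GoalsG

/-! Project UN: the window theorem (assembly). -/

set_option autoImplicit false

namespace Pool.Agent.Helper39.UN

open Finset
open Pool.Agent.Lead.Sh
open Pool.Agent.Helper43.Hw (T na va lz Play aa ac sc oo sk U Dd Sd Pn nx bb np)
open Pool.Agent.Helper43.Gm (Pri)
open Pool.Agent.Helper18.EW (Gr Ex Pau)
open Pool.Agent.Helper18.UW (Par4 UGrp uV uO uK uD uS uN UPlay UPre uz uo Vh mu OkU vk vx vd bk bx)
open Pool.Agent.Helper43.UN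

/-- the number of the cells of a region -/
theorem rg_card {D : Finset (ℕ × ℕ)} {R : ℕ} {ℓ : ℕ → ℕ} (hR : Rg D R ℓ) :
    ∑ z ∈ range R, ℓ z = D.card := by
  have h1 : D.card = ∑ j ∈ range R, (D.filter (fun x => x.2 = j)).card := by
    apply card_eq_sum_card_fiberwise
    intro x hx
    simp only [coe_range, Set.mem_Iio]
    exact hR.row x hx
  rw [h1, ← sum_range_reflect]
  apply sum_congr rfl
  intro j hj
  rw [mem_range] at hj
  exact (hR.card j hj).symm

theorem goalFUn : GoalFUn := by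
  intro hRL hNU hUG hR2 hVA hG hBT hTr
  intro D ℓ A0 Hg m M Mb μ δ Lg R A E0 βp βm W hPf hβp hβm hlin hRg hHg hHgm hAm hμM hLg hM h28 hδ
    hHgs hW hW2 hWl hcl
  set Cl := (A0 \ Hg).filter (fun k => μ ≤ m k + δ ∧ m k ≤ μ) with hCl
  have hA1 : 1 ≤ A := by
    have := hPf.A1
    have := hPf.M1
    omega
  have hμ0 : 1 ≤ μ := by
    rcases Nat.eq_zero_or_pos μ with h0 | h0
    · rw [h0] at h28
      omega
    · exact h0
  have hLg1 : 1 ≤ Lg := by
    rcases Nat.eq_zero_or_pos Lg with h0 | h0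
    · exfalso
      rw [h0] at hLg
      omega
    · exact h0
  have hLgM : 2 ^ 120 * M ≤ A := by
    calc 2 ^ 120 * M = 2 ^ 120 * 1 * M := by ring
      _ ≤ 2 ^ 120 * Lg ^ 3 * M := by
          have : 1 ≤ Lg ^ 3 := Nat.one_le_pow _ _ hLg1
          gcongr
      _ ≤ A := hM
  have hμR : 2 ^ 120 * Lg ^ 3 * μ ≤ A := le_trans (by gcongr) hM
  obtain ⟨l, b, q, v, w, par0, d1, lo, hi, hv1, vb, vc, hvw, h4w, hw1, hw2, hw3, hKμ⟩ :=
    hNU μ δ A W Lg hLg hA1 hμR h28 hδ hW2 hWl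
  set K := b * (q + 1) with hK
  have par : Par4 μ R K b l Lg q :=
    ⟨par0.l1, by have := hPf.R1; omega, par0.L1, par0.qL, par0.hK, par0.b1, par0.b2, par0.hL⟩
  have hb42 : 2 ^ 42 ≤ b := by
    have := par.b1
    have := par.L1
    nlinarith
  have hμbig : 2 ^ 75 ≤ μ := by
    have h2 := par.b2
    have hq : 1 ≤ (q + 1) ^ 2 := Nat.one_le_pow _ _ (by omega)
    have hl := par.l1
    calc 2 ^ 75 = 2 ^ 33 * 2 ^ 42 * 1 * 1 := by norm_num
      _ ≤ 2 ^ 33 * b * (q + 1) ^ 2 * l := by gcongr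
      _ ≤ μ := h2
  have hch : ∀ k, (k + 1).choose 2 = T k := fun k =>
    (Pool.Agent.Helper43.Hw.T_choose k).symm
  have hTμ : T μ ≤ μ ^ 2 := by
    have := Pool.Agent.Helper43.Hw.two_T μ
    nlinarith
  have hKA : 2 ^ 35 * (K * μ ^ 2) ≤ A * μ := by
    calc 2 ^ 35 * (K * μ ^ 2) = 2 ^ 35 * K * μ * μ := by ring
      _ ≤ A * μ := by gcongr
  have hMA : A * μ ≤ M * (A + 1) := by
    calc A * μ ≤ (A + 1) * M := by gcongr; omega
      _ = M * (A + 1) := by ring
  -- the number of the points in the cluster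
  have hKcard : K ≤ Cl.card := by
    by_contra hcon
    push Not at hcon
    have e1 : ∑ k ∈ Cl, (m k + 1).choose 2 ≤ ∑ _k ∈ Cl, μ ^ 2 := by
      apply sum_le_sum
      intro k hk
      rw [hCl, mem_filter] at hk
      rw [hch]
      exact (Pool.Agent.Helper43.Hw.T_mono hk.2.2).trans hTμ
    rw [sum_const, smul_eq_mul] at e1
    have e2 : Cl.card * μ ^ 2 ≤ K * μ ^ 2 := by gcongr
    have e5 : 62 * M * (A + 1) = 62 * (M * (A + 1)) := by ring
    have e6 : 0 < M * (A + 1) := by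
      have : 0 < M := by omega
      positivity
    omega
  have hClA : Cl ⊆ A0 := (filter_subset _ _).trans sdiff_subset
  have hdis : Disjoint Hg Cl := by
    rw [disjoint_left]
    intro k hk hk2
    rw [hCl, mem_filter, mem_sdiff] at hk2
    exact hk2.1.2 hk
  obtain ⟨m', ms, N00, N0, N, hN00, hN0, hpre0, hpre, hmain, hspec, hmono, hsum0, hsum1, hsum2,
    htr⟩ := hRL A0 Hg Cl m K hHg hClA hdis hKcard
  have hCl' : ∀ k ∈ Cl, μ ≤ m k + δ ∧ m k ≤ μ := by
    intro k hk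
    rw [hCl, mem_filter] at hk
    exact hk.2
  have hCl1 : ∀ k ∈ Cl, 1 ≤ m k := by
    intro k hk
    rw [hCl, mem_filter, mem_sdiff] at hk
    exact (hAm k hk.1.1 hk.1.2).1
  -- the number of the cells
  have hcells := rg_card hRg
  set W0 : ℤ := (D.card : ℤ) - ∑ k ∈ A0, ((m k + 1).choose 2 : ℤ) with hW0
  have hsuT : (∑ c ∈ range N, T (m' c) : ℕ) + ∑ i ∈ range K, T (ms i) =
      ∑ k ∈ A0, (m k + 1).choose 2 := by
    rw [← hsum2]
    simp only [hch]
  have hMb := hPf.RE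
  have hRR : 100 * M ≤ R := hPf.R1
  have hW0' : |W0| ≤ 2 * A := by
    rw [hW]; exact_mod_cast hW2
  have hsp : ∑ i ∈ range K, T (ms i) ≤ K * μ ^ 2 := by
    calc ∑ i ∈ range K, T (ms i) ≤ ∑ _i ∈ range K, μ ^ 2 := by
          apply sum_le_sum
          intro i hi
          obtain ⟨k, hk, e⟩ := hspec i (mem_range.1 hi)
          rw [e]
          exact (Pool.Agent.Helper43.Hw.T_mono (hCl' k hk).2).trans hTμ
      _ = K * μ ^ 2 := by rw [sum_const, card_range, smul_eq_mul]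
  have sg : Sg m' M Mb μ R A E0 N00 N0 N ℓ (∑ i ∈ range K, (T (ms i) : ℤ) + W0) := by
    refine ⟨hPf, hμ0, hμM, hN00, hN0, ?_, ?_, ?_, ?_, ?_, ?_, ?_⟩
    · intro c hc
      obtain ⟨k, hk, e⟩ := hpre0 c hc
      rw [e]; exact hHgm k hk
    · intro c hc1 hc2
      obtain ⟨k, hk, hk2, e⟩ := hpre c hc1 hc2
      rw [e]; exact hAm k hk hk2
    · intro c hc1 hc2
      obtain ⟨k, hk, e⟩ := hmain c hc1 hc2
      rw [e]; exact ⟨hCl1 k hk, (hCl' k hk).2⟩
    · have e1 : ∑ c ∈ range N00, T (m' c) = ∑ k ∈ Hg, (m k + 1).choose 2 := by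
        rw [← hsum0]
        simp only [hch]
      rw [e1]
      exact hHgs
    · -- the area of the first points
      have e1 : ∑ c ∈ range N0, T (m' c) + ∑ k ∈ Cl, (m k + 1).choose 2 =
          ∑ k ∈ A0, (m k + 1).choose 2 := by
        rw [← hsum1]
        simp only [hch]
      have e2 : (∑ k ∈ A0, (m k + 1).choose 2 : ℕ) ≤ D.card + 2 * A := by
        have e3 : W0 = (D.card : ℤ) - ((∑ k ∈ A0, (m k + 1).choose 2 : ℕ) : ℤ) := by
          rw [hW0]; push_cast; rfl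
        have e4 : -W0 ≤ |W0| := neg_le_abs _
        omega
      have e3 : ∑ z ∈ range R, ℓ z ≤
          ∑ z ∈ range (R - 60 * M), ℓ z + 60 * M * A := by
        have e4 : ∑ z ∈ range R, ℓ z = ∑ z ∈ range (R - 60 * M), ℓ z +
            ∑ z ∈ Ico (R - 60 * M) R, ℓ z := by
          rw [sum_range_add_sum_Ico _ (by omega)]
        rw [e4]
        have e5 : ∑ z ∈ Ico (R - 60 * M) R, ℓ z ≤
            ∑ _z ∈ Ico (R - 60 * M) R, A := by
          apply sum_le_sum
          intro z hz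
          rw [mem_Ico] at hz
          exact hPf.le z hz.2
        rw [sum_const, Nat.card_Ico, smul_eq_mul, show R - (R - 60 * M) = 60 * M by omega] at e5
        omega
      rw [hcells] at e3
      have e6 : 62 * M * (A + 1) = 60 * M * A + 60 * M + 2 * (M * (A + 1)) := by ring
      have e7 : 2 * A < 2 * (M * (A + 1)) := by
        have : 1 * (A + 1) ≤ M * (A + 1) := by
          gcongr
          exact hPf.M1
        omega
      omega
    · have e1 : (∑ z ∈ range R, ((ℓ z : ℕ) : ℤ)) = (D.card : ℤ) := by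
        rw [← hcells]; push_cast; rfl
      have e2 : (∑ c ∈ range N, (T (m' c) : ℤ)) + ∑ i ∈ range K, (T (ms i) : ℤ) =
          ∑ k ∈ A0, ((m k + 1).choose 2 : ℤ) := by exact_mod_cast hsuT
      rw [e1]
      rw [hW0]
      linarith
    · -- `Zs`
      have e1 : (∑ i ∈ range K, (T (ms i) : ℤ)) ≤ (K : ℤ) * μ ^ 2 := by exact_mod_cast hsp
      have e0 : (0 : ℤ) ≤ ∑ i ∈ range K, (T (ms i) : ℤ) :=
        sum_nonneg (fun i _ => by positivity)
      have e2 : (2 : ℤ) ^ 35 * ((K : ℤ) * μ ^ 2) ≤ (A : ℤ) * μ := by exact_mod_cast hKA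
      have e3 : |(∑ i ∈ range K, (T (ms i) : ℤ)) + W0| ≤ (K : ℤ) * μ ^ 2 + 2 * A := by
        calc |(∑ i ∈ range K, (T (ms i) : ℤ)) + W0| ≤
              |∑ i ∈ range K, (T (ms i) : ℤ)| + |W0| := abs_add_le _ _
          _ ≤ (K : ℤ) * μ ^ 2 + 2 * A := by
            rw [abs_of_nonneg e0]
            exact add_le_add e1 hW0'
      have e4 : (16 : ℤ) * A ≤ (μ : ℤ) * A := by
        have h16 : (16 : ℤ) ≤ μ := by
          have : 16 ≤ μ := by omega
          exact_mod_cast this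
        have hA0' : (0 : ℤ) ≤ A := by positivity
        exact mul_le_mul_of_nonneg_right h16 hA0'
      have e5 : (A : ℤ) * μ = (μ : ℤ) * A := mul_comm _ _
      have e6 : (0 : ℤ) ≤ (K : ℤ) * μ ^ 2 := by positivity
      linarith
  have su : Su m' ms M Mb μ δ R A E0 βp βm N00 N0 N K b l Lg q v ℓ W0 := by
    refine ⟨sg, par, hβp, hβm, hlin, d1, lo, hi, hv1, vb, vc, hW0', ?_, hmono, ?_⟩
    · intro c hc1 hc2
      obtain ⟨k, hk, e⟩ := hmain c hc1 hc2
      rw [e]; exact hCl' k hk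
    · intro i hi
      obtain ⟨k, hk, e⟩ := hspec i hi
      rw [e]; exact hCl' k hk
  obtain ⟨τ, κ2, x2, rp⟩ := hR2 m' ms M Mb μ δ R A E0 βp βm N00 N0 N K b l Lg q v ℓ W0 su
  obtain ⟨vh, vp⟩ := hVA m' ms M Mb μ δ R A E0 βp βm N00 N0 N K b l Lg q v τ ℓ W0 κ2 x2 su rp
  set N1 := aa κ2 x2 (R - 56 * μ) with hN1
  obtain ⟨κ, x, e, P, s, E, play, grp, agr, hfin⟩ :=
    hG μ δ R A (N - N1) K b l Lg q v τ w βp βm W0 ms _ _ _ vp su.spec hvw h4w hw1
      (by rw [hW]; exact_mod_cast hw2) (by rw [hW]; exact_mod_cast hw3)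
  have hJs := grp.Js
  have hsR := grp.sR
  have hts := grp.ts
  obtain ⟨hplay, hBT1, hBT2⟩ := hBT m' μ δ R N N1 (κ2 τ) τ s κ2 x2 κ x vh hJs hsR play agr
  set κ' := bk s N1 κ2 κ with hκ'
  set x' := bx m' μ s N1 (N - N1) x2 κ x with hx'
  have hk' : ∀ y < s, κ' y = κ2 y := by
    intro y hy
    simp only [hκ', bk]
    rw [if_pos hy]
  have hx2' : ∀ y < s, x' y = x2 y := by
    intro y hy
    simp only [hx', bx]
    rw [if_pos hy]
  obtain ⟨⟨g0, -⟩, -⟩ := hUG μ δ R K τ s E ms e P grp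
  have hvlm : ∀ z < τ, uz m' R N κ' x' z + uV R K τ s ms e P z = ℓ z := by
    intro z hz
    rw [hBT1 z hz, rp.ex z hz, g0 z hz]
    omega
  have hvl2 : ∀ z, τ ≤ z → vl m' μ R N1 (κ2 τ) N τ ℓ κ2 x2 z =
      ℓ z + vd m' μ R (κ2 τ) N z := by
    intro z hz
    unfold vl
    rw [if_neg (by omega)]
  have hT := hTr D m' ms μ δ R N K τ s E ℓ κ' x' e P hRg (by omega) vh.m1 hplay grp (by
      intro t ht1 ht2
      have e1 := rp.pa t ht1 (by omega)
      rw [hk' t ht2, hk' τ (by omega), hx2' t ht2]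
      exact e1) (by
      rw [hk' τ (by omega), hk' (τ - 1) (by omega)]
      exact rp.g1) (by
      rw [hk' τ (by omega)]
      exact rp.g2)
  obtain ⟨hT1, hT2⟩ := hT
  have hcast : ((∑ k ∈ A0, (m k + 1).choose 2 : ℕ) : ℤ) =
      ∑ k ∈ A0, ((m k + 1).choose 2 : ℤ) := by
    push_cast; rfl
  rcases hfin with ⟨f1, f2⟩ | ⟨f1, f2⟩
  · left
    refine ⟨?_, (htr _).2 (hT2 ?_)⟩
    · omega
    · intro z hz
      rcases Nat.lt_or_ge z τ with h3 | h3
      · exact (hvlm z h3).le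
      · have e1 := f2 z hz
        rw [hvl2 z h3, hBT2 z h3 hz] at e1
        omega
  · right
    refine ⟨?_, (htr _).1 (hT1 ?_)⟩
    · omega
    · intro z hz
      rcases Nat.lt_or_ge z τ with h3 | h3
      · exact (hvlm z h3).ge
      · have e1 := f2 z hz
        rw [hvl2 z h3, hBT2 z h3 hz] at e1
        omega

end Pool.Agent.Helper39.UN
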