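import Mathlib
import Pool.Agent.Helper43.UN.GoalsH
import Pool.Agent.Helper32.UW.Red

/-! Project UN: reduction to the core. -/

set_option autoImplicit false

namespace Pool.Agent.Helper39.UN

open Finset
open Pool.Agent.Lead.Sh
open Pool.Agent.Helper43.Ah (rowsD)
open Pool.Agent.Helper32.UW (rows_sub lower)
open Helper18.Cusp (GoodFor)
open Pool.Agent.Helper43.UN

theorem goalRedn : GoalRedn := by
  intro hC Hg Ns m M Mb R A β lam hsh hdis hHg hNs har
  have hM1 : 1 ≤ M := hsh.M1
  have hMMb : M ≤ Mb := hsh.MMb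
  set D := rowsD R lam with hD
  have hfil : ∀ (S : Finset ℕ) (n : ℕ → ℕ),
      ∑ k ∈ S.filter (fun k => 1 ≤ n k), (n k + 1).choose 2 = ∑ k ∈ S, (n k + 1).choose 2 := by
    intro S n
    rw [Finset.sum_filter_of_ne]
    intro k _ hk
    by_contra hcon
    apply hk
    have : n k = 0 := by omega
    rw [this]; rfl
  constructor
  · intro hlt
    rw [sum_union hdis] at hlt
    have hT : D.card - ∑ k ∈ Hg, (m k + 1).choose 2 ≤ ∑ k ∈ Ns, (m k + 1).choose 2 := by omega
    obtain ⟨m', h1, h2, h3⟩ := lower Ns M (D.card - ∑ k ∈ Hg, (m k + 1).choose 2) _ m rfl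
      hNs hT
    set n : ℕ → ℕ := fun k => if k ∈ Hg then m k else m' k with hn
    have hnm : ∀ k, n k ≤ m k := by
      intro k
      simp only [hn]
      split_ifs
      · exact le_rfl
      · exact h1 k
    have hn1 : ∀ k ∈ Hg, n k = m k := by
      intro k hk
      simp only [hn]
      rw [if_pos hk]
    have hn2 : ∀ k ∈ Ns, n k = m' k := by
      intro k hk
      simp only [hn]
      rw [if_neg (fun h => (disjoint_left.1 hdis h) hk)]
    have hs1 : ∑ k ∈ Hg, (n k + 1).choose 2 = ∑ k ∈ Hg, (m k + 1).choose 2 :=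
      sum_congr rfl (fun k hk => by rw [hn1 k hk])
    have hs2 : ∑ k ∈ Ns, (n k + 1).choose 2 = ∑ k ∈ Ns, (m' k + 1).choose 2 :=
      sum_congr rfl (fun k hk => by rw [hn2 k hk])
    set A0 := (Hg ∪ Ns).filter (fun k => 1 ≤ n k) with hA0
    have hsA : ∑ k ∈ A0, (n k + 1).choose 2 =
        ∑ k ∈ Hg, (m k + 1).choose 2 + ∑ k ∈ Ns, (m' k + 1).choose 2 := by
      rw [hA0, hfil, sum_union hdis, hs1, hs2]
    have cd : CD A0 (Hg.filter (fun k => 1 ≤ n k)) n M Mb R A β lam := by
      refine ⟨hsh, ?_, ?_, ?_, ?_, ?_, ?_⟩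
      · exact filter_subset_filter _ subset_union_left
      · intro k hk
        rw [mem_filter] at hk
        exact ⟨hk.2, (hnm k).trans (hHg k hk.1)⟩
      · intro k hk hk2
        rw [hA0, mem_filter, mem_union] at hk
        rw [mem_filter] at hk2
        rcases hk with ⟨hk1 | hk1, hk3⟩
        · exact absurd ⟨hk1, hk3⟩ hk2
        · exact ⟨hk3, (hnm k).trans (hNs k hk1)⟩
      · rw [hfil, hs1]
        exact har
      · rw [hsA, ← hD]
        omega
      · rw [hsA, ← hD]
        omega
    have key := hC A0 _ n M Mb R A β lam cd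
    refine key.mono subset_rfl (rows_sub ?_)
    intro k hk _
    rw [hA0, mem_filter] at hk
    exact ⟨hk.1, hnm k⟩
  · intro hle
    obtain ⟨f, hf⟩ := Nat.exists_eq_add_of_le hle
    obtain ⟨B, hB⟩ : ∃ B, ∀ k ∈ Hg ∪ Ns, k < B :=
      ⟨(Hg ∪ Ns).sup id + 1, fun k hk => Nat.lt_succ_of_le (Finset.le_sup (f := id) hk)⟩
    set n : ℕ → ℕ := fun k => if k ∈ Hg ∪ Ns then m k else 1 with hn
    have hn1 : ∀ k ∈ Hg ∪ Ns, n k = m k := by
      intro k hk
      simp only [hn]
      rw [if_pos hk]
    have hn2 : ∀ k, B ≤ k → n k = 1 := by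
      intro k hk
      simp only [hn]
      rw [if_neg (fun h => by have := hB k h; omega)]
    set A0 := (Hg ∪ Ns).filter (fun k => 1 ≤ n k) ∪ Ico B (B + f) with hA0
    have hdj : Disjoint ((Hg ∪ Ns).filter (fun k => 1 ≤ n k)) (Ico B (B + f)) := by
      rw [disjoint_left]
      intro k hk hk2
      rw [mem_filter] at hk
      rw [mem_Ico] at hk2
      have := hB k hk.1
      omega
    have hsA : ∑ k ∈ A0, (n k + 1).choose 2 = D.card := by
      rw [hA0, sum_union hdj, hf]
      congr 1
      · rw [hfil]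
        exact sum_congr rfl (fun k hk => by rw [hn1 k hk])
      · rw [sum_congr rfl (g := fun _ => 1)]
        · rw [sum_const, smul_eq_mul, Nat.card_Ico, Nat.add_sub_cancel_left, mul_one]
        · intro k hk
          rw [mem_Ico] at hk
          rw [hn2 k hk.1]
          rfl
    have cd : CD A0 (Hg.filter (fun k => 1 ≤ n k)) n M Mb R A β lam := by
      refine ⟨hsh, ?_, ?_, ?_, ?_, ?_, ?_⟩
      · exact (filter_subset_filter _ subset_union_left).trans subset_union_left
      · intro k hk
        rw [mem_filter] at hk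
        exact ⟨hk.2, (hn1 k (mem_union_left _ hk.1)).le.trans (hHg k hk.1)⟩
      · intro k hk hk2
        rw [hA0, mem_union, mem_filter, mem_union, mem_Ico] at hk
        rw [mem_filter] at hk2
        rcases hk with ⟨hk1 | hk1, hk3⟩ | hk
        · exact absurd ⟨hk1, hk3⟩ hk2
        · exact ⟨hk3, (hn1 k (mem_union_right _ hk1)).le.trans (hNs k hk1)⟩
        · rw [hn2 k hk.1]
          exact ⟨le_rfl, hM1⟩
      · rw [hfil]
        rw [sum_congr rfl (g := fun k => (m k + 1).choose 2)
          (fun k hk => by rw [hn1 k (mem_union_left _ hk)])]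
        exact har
      · rw [hsA]
      · rw [hsA, ← hD]
        omega
    have key := hC A0 _ n M Mb R A β lam cd
    obtain ⟨P, hP⟩ := key
    have hInd : Ind D (rows n A0) := ⟨P, hP.ind (by rw [card_rows, hsA])⟩
    refine hInd.mono subset_rfl (rows_sub ?_)
    intro k hk hk1
    refine ⟨?_, (hn1 k hk).ge⟩
    rw [hA0, mem_union, mem_filter]
    left
    exact ⟨hk, by rw [hn1 k hk]; exact hk1⟩

end Pool.Agent.Helper39.UN
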